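import Pool.Agent.H17.VG.TargetsE
import Pool.Agent.H64.SC.Api

/-!
# MP_70ba79_ag: the discriminant (T_DI)
-/

set_option autoImplicit false

namespace Pool.Agent.H39.BO

open Polynomial SC Pool.Agent.H27.LV Pool.Agent.H17.VG

namespace DIaux

private lemma ord_coeff_ge {k K : Type} [Field k] [Field K] [Algebra k K] (v : DV k K) (P : K[X])
    (i : ℕ) : -(pc v P : ℤ) ≤ v.ord (P.coeff i) := by
  by_cases hi : i < P.natDegree + 1
  · have h : (-(v.ord (P.coeff i))).toNat ≤ pc v P := by
      unfold pc poleOrder
      exact Finset.le_sup (f := fun i : Fin (P.natDegree + 1) => (-(v.ord (P.coeff i))).toNat)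
        (Finset.mem_univ (⟨i, hi⟩ : Fin (P.natDegree + 1)))
    omega
  · have h : P.coeff i = 0 := coeff_eq_zero_of_natDegree_lt (by omega)
    rw [h, v.ord_zero]
    omega

private lemma ord_natCast {k K : Type} [Field k] [Field K] [Algebra k K] (v : DV k K)
    (n : ℕ) : v.ord (n : K) = 0 := by
  have := v.ord_base (n : k)
  rwa [map_natCast] at this

private lemma ord_dcoeff_ge {k K : Type} [Field k] [Field K] [Algebra k K] (v : DV k K) (P : K[X])
    (i : ℕ) : -(pc v P : ℤ) ≤ v.ord ((derivative P).coeff i) := by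
  rw [coeff_derivative]
  by_cases h1 : P.coeff (i + 1) = 0
  · rw [h1, zero_mul, v.ord_zero]
    omega
  by_cases h2 : ((i : K) + 1) = 0
  · rw [h2, mul_zero, v.ord_zero]
    omega
  have h3 : v.ord ((i : K) + 1) = 0 := by
    have := ord_natCast v (i + 1)
    push_cast at this
    exact this
  rw [v.ord_mul _ _ h1 h2, h3, add_zero]
  exact ord_coeff_ge v P (i + 1)

/-- the order of a determinant -/
private lemma ord_det_ge {k K : Type} [Field k] [Field K] [Algebra k K] (v : DV k K) {N : ℕ}
    (M : Matrix (Fin N) (Fin N) K) (p : ℕ) (hM : ∀ i j, -(p : ℤ) ≤ v.ord (M i j))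
    (hd : M.det ≠ 0) : -((N * p : ℕ) : ℤ) ≤ v.ord M.det := by
  rw [Matrix.det_apply] at hd ⊢
  refine v.ord_sum_ge _ _ (fun σ _ hσ => ?_) hd
  have h1 : v.ord (Equiv.Perm.sign σ • ∏ i, M (σ i) i) = v.ord (∏ i, M (σ i) i) := by
    rcases Int.units_eq_one_or (Equiv.Perm.sign σ) with h | h
    · rw [h, one_smul]
    · rw [h, Units.neg_smul, one_smul, v.ord_neg]
  have h2 : ∏ i, M (σ i) i ≠ 0 := by
    intro h
    apply hσ
    rw [h, smul_zero]
  rw [h1, v.ord_prod _ _ (fun i hi => Finset.prod_ne_zero_iff.mp h2 i hi)]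
  calc -((N * p : ℕ) : ℤ) = ∑ _i : Fin N, -(p : ℤ) := by
        rw [Finset.sum_const, Finset.card_univ, Fintype.card_fin]
        push_cast
        simp
    _ ≤ _ := Finset.sum_le_sum fun i _ => hM (σ i) i

/-- roots are integral -/
private lemma ord_root_nonneg {k L : Type} [Field k] [Field L] [Algebra k L] (w : DV k L)
    (P : L[X]) (hP : P.Monic) (hc : ∀ i, 0 ≤ w.ord (P.coeff i)) (α : L) (hα : P.eval α = 0) :
    0 ≤ w.ord α := by
  by_contra hneg
  push Not at hneg
  have hα0 : α ≠ 0 := by
    intro h
    rw [h, w.ord_zero] at hneg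
    exact lt_irrefl _ hneg
  have hn : P.natDegree ≠ 0 := by
    intro h
    have h1 := hP.natDegree_eq_zero.mp h
    rw [h1, eval_one] at hα
    exact one_ne_zero hα
  obtain ⟨m, hm⟩ := Nat.exists_eq_succ_of_ne_zero hn
  rw [eval_eq_sum_range, Finset.sum_range_succ, coeff_natDegree, hP.leadingCoeff, one_mul] at hα
  have h1 : α ^ P.natDegree = -∑ i ∈ Finset.range P.natDegree, P.coeff i * α ^ i :=
    (neg_eq_of_add_eq_zero_right hα).symm
  have h2 : α ^ P.natDegree ≠ 0 := pow_ne_zero _ hα0
  have h3 : ∑ i ∈ Finset.range P.natDegree, P.coeff i * α ^ i ≠ 0 := by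
    intro h
    rw [h, neg_zero] at h1
    exact h2 h1
  have h4 : (m : ℤ) * w.ord α ≤ w.ord (∑ i ∈ Finset.range P.natDegree, P.coeff i * α ^ i) := by
    refine w.ord_sum_ge _ _ (fun i hi hne => ?_) h3
    have hi' : i ≤ m := by
      rw [Finset.mem_range] at hi
      omega
    have hc0 : P.coeff i ≠ 0 := left_ne_zero_of_mul hne
    rw [w.ord_mul _ _ hc0 (pow_ne_zero _ hα0), w.ord_pow]
    have h5 : (m : ℤ) * w.ord α ≤ (i : ℤ) * w.ord α := by
      have : (i : ℤ) ≤ m := by exact_mod_cast hi'
      nlinarith
    have := hc i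
    linarith
  have h6 : w.ord (α ^ P.natDegree) = (P.natDegree : ℤ) * w.ord α := w.ord_pow _ _
  rw [h1, w.ord_neg, hm] at h6
  push_cast at h6
  have h7 : w.ord (∑ i ∈ Finset.range P.natDegree, P.coeff i * α ^ i) =
      ((m : ℤ) + 1) * w.ord α := by
    rw [← h6, hm]
  rw [h7] at h4
  linarith

/-- integral polynomials at integral points -/
private lemma ord_eval_nonneg {k L : Type} [Field k] [Field L] [Algebra k L] (w : DV k L)
    (P : L[X]) (hc : ∀ i, 0 ≤ w.ord (P.coeff i)) (α : L) (hα : 0 ≤ w.ord α) :
    0 ≤ w.ord (P.eval α) := by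
  rw [eval_eq_sum_range]
  exact w.ord_sum_nonneg _ _ fun i _ => w.ord_mul_nonneg (hc i) (w.ord_pow_nonneg hα i)

private lemma ord_mprod_nonneg {k L : Type} [Field k] [Field L] [Algebra k L] (w : DV k L)
    (s : Multiset L) (h : ∀ x ∈ s, 0 ≤ w.ord x) : 0 ≤ w.ord s.prod := by
  induction s using Multiset.induction_on with
  | empty => rw [Multiset.prod_zero, w.ord_one]
  | cons a s ih =>
    rw [Multiset.prod_cons]
    exact w.ord_mul_nonneg (h a (Multiset.mem_cons_self a s))
      (ih fun x hx => h x (Multiset.mem_cons_of_mem hx))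

/-- the factors of a unit are units -/
private lemma ord_factor {k L : Type} [Field k] [Field L] [Algebra k L] (w : DV k L)
    (s : Multiset L) (f : L → L) (h : ∀ x ∈ s, 0 ≤ w.ord (f x)) (h0 : (s.map f).prod ≠ 0)
    (h1 : w.ord (s.map f).prod = 0) (a : L) (ha : a ∈ s) : w.ord (f a) = 0 := by
  classical
  have e := Multiset.prod_map_erase (f := f) ha
  rw [← e] at h0 h1
  have hf := left_ne_zero_of_mul h0
  have hr := right_ne_zero_of_mul h0
  rw [w.ord_mul _ _ hf hr] at h1
  have h2 := h a ha
  have h3 : 0 ≤ w.ord ((s.erase a).map f).prod := by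
    refine ord_mprod_nonneg w _ fun x hx => ?_
    obtain ⟨y, hy, rfl⟩ := Multiset.mem_map.mp hx
    exact h y (Multiset.mem_of_mem_erase hy)
  omega

end DIaux

open DIaux in
/-- the discriminant -/
theorem pf_DI : Pool.Agent.H17.VG.T_DI := by
  classical
  intro r
  refine ⟨2 * r, ?_⟩
  intro k K _ _ _ _ U hU hS hr
  refine ⟨resultant U (derivative U), resultant_ne_zero _ _ hS, ?_, ?_⟩
  · intro v
    have h1 := ord_det_ge v (sylvester U (derivative U) U.natDegree (derivative U).natDegree)
      (pc v U) ?_ (resultant_ne_zero _ _ hS)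
    · have h2 : (U.natDegree + (derivative U).natDegree) * pc v U ≤ 2 * r * pc v U := by
        have := natDegree_derivative_le U
        refine Nat.mul_le_mul_right _ ?_
        omega
      have h3 : (((U.natDegree + (derivative U).natDegree) * pc v U : ℕ) : ℤ) ≤
          ((2 * r * pc v U : ℕ) : ℤ) := by exact_mod_cast h2
      have h4 : v.ord (resultant U (derivative U)) =
        v.ord (sylvester U (derivative U) U.natDegree (derivative U).natDegree).det := rfl
      rw [h4]
      push_cast at h1 h3 ⊢
      linarith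
    · intro i j
      rw [sylvester, Matrix.of_apply]
      induction j using Fin.addCases with
      | left j =>
        rw [Fin.addCases_left]
        split_ifs
        · exact ord_dcoeff_ge v U _
        · rw [v.ord_zero]
          omega
      | right j =>
        rw [Fin.addCases_right]
        split_ifs
        · exact ord_coeff_ge v U _
        · rw [v.ord_zero]
          omega
  · intro L _ _ _ _ hsp v w e hO hpc hR0 α β hα hβ
    set P : L[X] := U.map (algebraMap K L) with hPdef
    have hPm : P.Monic := hU.map _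
    have hP0 : P ≠ 0 := hPm.ne_zero
    have hc : ∀ i, 0 ≤ w.ord (P.coeff i) := by
      intro i
      rw [hPdef, coeff_map, hO.2]
      have h1 := ord_coeff_ge v U i
      rw [hpc] at h1
      have h2 : 0 ≤ v.ord (U.coeff i) := by simpa using h1
      positivity
    have hdc : ∀ i, 0 ≤ w.ord ((derivative P).coeff i) := by
      intro i
      rw [hPdef, derivative_map, coeff_map, hO.2]
      have h1 := ord_dcoeff_ge v U i
      rw [hpc] at h1
      have h2 : 0 ≤ v.ord ((derivative U).coeff i) := by simpa using h1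
      positivity
    have hroot : ∀ γ : L, P.eval γ = 0 → 0 ≤ w.ord γ := fun γ hγ =>
      ord_root_nonneg w P hPm hc γ hγ
    have hmem : ∀ γ : L, γ ∈ P.roots ↔ P.eval γ = 0 := by
      intro γ
      rw [mem_roots hP0]
      rfl
    have hprod : algebraMap K L (resultant U (derivative U)) =
        (P.roots.map (derivative P).eval).prod := by
      have h1 := resultant_eq_prod_eval P (derivative P) (derivative U).natDegree (by
        rw [hPdef, derivative_map]
        exact natDegree_map_le) hsp
      rw [hPm.leadingCoeff, one_pow, one_mul] at h1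
      rw [← h1, ← resultant_map_map, hPdef, derivative_map, natDegree_map]
    have hR0ne : algebraMap K L (resultant U (derivative U)) ≠ 0 := by
      rw [Ne, FaithfulSMul.algebraMap_eq_zero_iff]
      exact resultant_ne_zero _ _ hS
    have hord0 : w.ord (P.roots.map (derivative P).eval).prod = 0 := by
      rw [← hprod, hO.2, hR0, mul_zero]
    have hder : ∀ γ ∈ P.roots, 0 ≤ w.ord ((derivative P).eval γ) := fun γ hγ =>
      ord_eval_nonneg w _ hdc γ (hroot γ ((hmem γ).mp hγ))
    have hαd : w.ord ((derivative P).eval α) = 0 :=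
      ord_factor w P.roots (derivative P).eval hder (by rw [← hprod]; exact hR0ne) hord0 α
        ((hmem α).mpr hα)
    refine ⟨hroot α hα, ?_, hαd⟩
    intro hne
    have he := hsp.eval_root_derivative hPm ((hmem α).mpr hα)
    have hαd0 : (derivative P).eval α ≠ 0 := by
      have h1 : (P.roots.map (derivative P).eval).prod ≠ 0 := by
        rw [← hprod]
        exact hR0ne
      intro h
      apply h1
      apply Multiset.prod_eq_zero
      rw [Multiset.mem_map]
      exact ⟨α, (hmem α).mpr hα, h⟩
    rw [he] at hαd hαd0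
    refine ord_factor w (P.roots.erase α) (fun a => α - a) ?_ hαd0 hαd β ?_
    · intro x hx
      have h1 := hroot x ((hmem x).mp (Multiset.mem_of_mem_erase hx))
      exact w.ord_sub_nonneg (hroot α hα) h1
    · rw [Multiset.mem_erase_of_ne (Ne.symm hne)]
      exact (hmem β).mpr hβ

end Pool.Agent.H39.BO
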